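import Pool.Agent.Helper62.PC.M_V

set_option autoImplicit false

/-!
# Packed checker, module O: rule leaves
-/

namespace Pool.Agent.Helper62.PC

open Helper11.CT Helper55.PC Helper81.PC

theorem rep_fd (hA : StA) {K : Cls} (hg : Good K) (r : RLn) (hf : ∀ x ∈ r.f, |x| ≤ 24) :
    Rep 1732 (fd K (toRL r)) (fdN (pkK K) r) := by
  obtain ⟨st, jr, f0, dk, n, f, W, en1, en2, ef1, ef2, sc, zn, zf, zl, znf, znl, zfl, KW, Kt, AW,
    At, BW, Bt, Z⟩ := r
  have h1 : Rep (576 + 1152) (axpy 1 (fR K f) (fx K f)) (fRN (pkK K) f + fxN (pkK K) f) :=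
    rep_add hA (by norm_num) (by norm_num) (hg.R f hf) (hg.x f hf)
  cases dk with
  | true =>
    have h2 := rep_add hA (by norm_num) (by norm_num) hg.A h1
    exact h2.mono (by norm_num)
  | false => exact h1.mono (by norm_num)

theorem rep_fkd (hA : StA) {K : Cls} (hg : Good K) (r : RLn) (hf : ∀ x ∈ r.f, |x| ≤ 24) :
    Rep 580 (fkd K (toRL r)) (fkdN (pkK K) r) := by
  obtain ⟨st, jr, f0, dk, n, f, W, en1, en2, ef1, ef2, sc, zn, zf, zl, znf, znl, zfl, KW, Kt, AW,
    At, BW, Bt, Z⟩ := r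
  cases dk with
  | true =>
    have h2 := rep_add hA (by norm_num) (by norm_num) hg.A (hg.R f hf)
    exact h2.mono (by norm_num)
  | false => exact (hg.R f hf).mono (by norm_num)

theorem and2_O {a b : Bool} (h1 : a = true) (h2 : b = true) : (a && b) = true := by
  rw [h1, h2]; rfl

theorem hO (hA : StA) (hK : StK) (hL : StL) (hM : StM) (hN : StN) : StO := by
  intro K Q r hg hq h
  have h1 : an (isI K r.W) (an (okW r.W) (an (okd r.n) (an (okd r.f) (an (rixN (pkK K) (pkQ Q) r)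
    (an (meN (pkQ Q) (pkK K).P (pkN r.W) (ng (fkdN (pkK K) r)) (pkK K).B 1 r.KW)
    (an (meN (pkQ Q) (pkK K).P (ng (fxN (pkK K) r.n) + fdN (pkK K) r) (ng (fkdN (pkK K) r))
      (pkK K).B 0 r.Kt)
    (an (lmN (pkK K) (pkQ Q) r.st r.n (pkN r.W) (ng (fxN (pkK K) r.n) + fdN (pkK K) r) 0
      r.AW r.At r.BW r.Bt)
    (match r.jr with
    | true => an (match r.st with | 0 => false | _ => true) (an (r.KW.inn != r.Kt.inn)
        (istwo (jmp0 r.st r.AW.inn r.At.inn r.BW.inn r.Bt.inn)))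
    | false =>
      an (zaN (pkK K) (pkQ Q) 0 0 (sp4 K r.st) (fdN (pkK K) r) (fxN (pkK K) r.n) (pkN r.W)
        (ng (fxN (pkK K) r.n) + fdN (pkK K) r) 0 r.Z)
      (let G := zG K 0 0 (sp4 K r.st) (r.Z.map toZn)
       let s := Int.mul (match r.dk with | true => 1 | false => -1)
          (Int.sub (b2 r.KW.inn) (b2 r.Kt.inn))
       let J0 := jmp0 r.st r.AW.inn r.At.inn r.BW.inn r.Bt.inn
       let J1 := jmp1 r.st r.AW.inn r.At.inn r.BW.inn r.Bt.inn
       rgN [0, J0, s, Int.add J0 s, G, Int.add G J1, Int.add G s,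
         Int.add (Int.add G J1) s])))))))))  = true := h
  rw [an_iff, an_iff, an_iff, an_iff, an_iff, an_iff, an_iff, an_iff] at h1
  obtain ⟨a1, a2, a3, a4, a5, a6, a7, a8, a9⟩ := h1
  obtain ⟨w1, w2⟩ := okW_bd a2
  have n3 : ∀ x ∈ r.n, |x| ≤ 24 := fun x hx => ((okd_bd a3).2 x hx).trans (by norm_num)
  have f3 : ∀ x ∈ r.f, |x| ≤ 24 := fun x hx => ((okd_bd a4).2 x hx).trans (by norm_num)
  have rW : Rep 5000 r.W (pkN r.W) := Rep.pk w1 (fun x hx => (w2 x hx).trans (by norm_num))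
    (by norm_num)
  have rd := rep_fd hA hg r f3
  have rk := rep_fkd hA hg r f3
  have rx := hg.x r.n n3
  have rt : Rep 5000 (axpy (-1) (fx K r.n) (fd K (toRL r)))
      (ng (fxN (pkK K) r.n) + fdN (pkK K) r) :=
    (rep_sub hA (by norm_num) (by norm_num) rx rd).mono (by norm_num)
  have b5 := hM.2 K Q r hg hq a3 a4 a5
  have b6 := hK Q K.P r.W (fkd K (toRL r)) K.B [1] _ _ _ _ _ r.KW hq hg.P
    (rW.mono (by norm_num)) ((rk.mono (by norm_num)).neg) hg.B (Rep.one le_rfl) a6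
  have b7 := hK Q K.P _ (fkd K (toRL r)) K.B [] _ _ _ _ _ r.Kt hq hg.P
    (rt.mono (by norm_num)) ((rk.mono (by norm_num)).neg) hg.B (Rep.nil _) a7
  have b8 := hN.1 K Q r.st r.n r.W (axpy (-1) (fx K r.n) (fd K (toRL r))) [] _ _ _ r.AW r.At r.BW
    r.Bt hg hq n3 rW rt (Rep.nil _) a8
  have b9 : (match (toRL r).jr with
    | true => (match (toRL r).st with | 0 => false | _ => true) && ((toRL r).KW.inn != (toRL r).Kt.inn) &&
        istwo (jmp0 (toRL r).st (toRL r).AW.inn (toRL r).At.inn (toRL r).BW.inn (toRL r).Bt.inn)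
    | false =>
      zall K Q 0 0 (sp4 K (toRL r).st) (fd K (toRL r)) (fx K (toRL r).n) (toRL r).W
        (axpy (-1) (fx K (toRL r).n) (fd K (toRL r))) [] (toRL r).Z &&
      (let G := zG K 0 0 (sp4 K (toRL r).st) (toRL r).Z
       let s := Int.mul (match (toRL r).dk with | true => 1 | false => -1)
          (Int.sub (b2 (toRL r).KW.inn) (b2 (toRL r).Kt.inn))
       let J0 := jmp0 (toRL r).st (toRL r).AW.inn (toRL r).At.inn (toRL r).BW.inn (toRL r).Bt.inn
       let J1 := jmp1 (toRL r).st (toRL r).AW.inn (toRL r).At.inn (toRL r).BW.inn (toRL r).Bt.inn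
       rng [0, J0, s, Int.add J0 s, G, Int.add G J1, Int.add G s, Int.add (Int.add G J1) s])) =
         true := by
    obtain ⟨st, jr, f0, dk, n, f, W, en1, en2, ef1, ef2, sc, zn, zf, zl, znf, znl, zfl, KW, Kt,
      AW, At, BW, Bt, Z⟩ := r
    cases jr with
    | true =>
      have a9' := (an_iff _ _).1 a9
      have a10 := (an_iff _ _).1 a9'.2
      exact and2_O (and2_O a9'.1 a10.1) a10.2
    | false =>
      have a9' := (an_iff _ _).1 a9
      have c1 := hL.2 K Q 0 0 (sp4 K st) _ _ _ _ [] _ _ _ _ _ Z hg hq (rd.mono (by norm_num))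
        (rx.mono (by norm_num)) rW rt (Rep.nil _) a9'.1
      have c2 := hN.2 _ (by simp) a9'.2
      exact and2_O c1 c2
  show (isI K r.W && rlix K Q (toRL r) &&
    memc Q K.P r.W (fkd K (toRL r)) K.B [1] (toMem r.KW) &&
    memc Q K.P (axpy (-1) (fx K r.n) (fd K (toRL r))) (fkd K (toRL r)) K.B [] (toMem r.Kt) &&
    lmem K Q r.st r.n r.W (axpy (-1) (fx K r.n) (fd K (toRL r))) [] (toMem r.AW) (toMem r.At)
      (toMem r.BW) (toMem r.Bt) && _) = true
  rw [a1, b5, b6, b7, b8]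
  exact b9

end Pool.Agent.Helper62.PC
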