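import Pool.Agent.Helper81.PC.St

set_option autoImplicit false

/-!
# Packed checker, module V: trees and the final theorem
-/

namespace Pool.Agent.Helper62.PC

open Helper11.CT Helper55.PC Helper81.PC

theorem rep_axpy (hA : StA) {k : ℤ} {kn : ℕ} {α β : ℤ} {e f : List ℤ} {v w : ℕ} (hα : 0 ≤ α)
    (hβ : 0 ≤ β) (he : Rep α e v) (hf : Rep β f w) (hk : (kn : ℤ) ≡ k [ZMOD ZZ]) :
    Rep (|k| * α + β) (axpy k e f) (kn * v + w) := by
  obtain ⟨h1, h2, h3⟩ := hA k e f
  refine ⟨h2.trans (max_le he.len hf.len), h3 α β hα hβ he.bd hf.bd, ?_⟩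
  rw [h1]
  push_cast
  exact (hk.mul he.cg).add hf.cg

theorem rep_add (hA : StA) {α β : ℤ} {e f : List ℤ} {v w : ℕ} (hα : 0 ≤ α)
    (hβ : 0 ≤ β) (he : Rep α e v) (hf : Rep β f w) :
    Rep (α + β) (axpy 1 e f) (v + w) := by
  have h := rep_axpy hA (k := 1) (kn := 1) hα hβ he hf (by simp)
  simpa using h

theorem rep_sub (hA : StA) {α β : ℤ} {e f : List ℤ} {v w : ℕ} (hα : 0 ≤ α)
    (hβ : 0 ≤ β) (he : Rep α e v) (hf : Rep β f w) :
    Rep (α + β) (axpy (-1) e f) (ng v + w) := by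
  obtain ⟨h1, h2, h3⟩ := hA (-1) e f
  refine ⟨h2.trans (max_le he.len hf.len), ?_, ?_⟩
  · have := h3 α β hα hβ he.bd hf.bd
    simpa using this
  · rw [h1]
    push_cast
    refine ((ng_cg v).trans ?_).add hf.cg
    have := he.cg.neg
    simpa using this

theorem ps_congr {a b : ℕ} (h : (a : ℤ) ≡ b [ZMOD ZZ]) (Q : ℕ) : ps a Q = ps b Q := by
  have h1 : a % ZN = b % ZN := by
    rw [← ZN_eq] at h
    exact Int.natCast_modEq_iff.1 h
  unfold ps
  show Nat.add (a % ZN) _ = Nat.add (b % ZN) _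
  rw [h1]

theorem gq_cons {Q : List Con} (hQ : GQ Q) {b : Bool} {e : List ℤ} (h1 : e.length ≤ 16)
    (h2 : ∀ x ∈ e, |x| ≤ 4096) : GQ ((b, e) :: Q) := by
  intro c hc
  rw [List.mem_cons] at hc
  rcases hc with rfl | hc
  · exact ⟨h1, h2⟩
  · exact hQ c hc

theorem cert_nil (Q : List Con) (c : Cert) (h : cert Q c [] = true) :
    comb c.l Q [] (Int.ofNat 0) false = true := by
  obtain ⟨l0, l⟩ := c
  cases l0 with
  | zero => exact h
  | succ n => exact h

theorem hV (hA : StA) (hE : StE) (hG : StG) (hI : StI) (hO : StO) (hP : StP) (hQ : StQ)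
    (hU : StU) : StV := by
  intro K t Q h
  have h' : an (okK K) (an (okQ Q) (chN (pkK K) t (pkQ Q))) = true := h
  rw [an_iff, an_iff] at h'
  obtain ⟨hK, hQ0, hc⟩ := h'
  have hg := hG K hK
  have hq := okQ_GQ Q hQ0
  clear h hQ0 hK
  induction t generalizing Q with
  | I e L R ihL ihR =>
    have h1 : an (isI K e) (an (okc e)
      (an (chN (pkK K) L (pkQ ((true, e) :: Q)))
        (chN (pkK K) R (ps (Nat.mul (nat_lit 4294967296) (pkN e)) (pkQ Q))))) = true := hc
    rw [an_iff, an_iff, an_iff] at h1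
    obtain ⟨a1, a2, a3, a4⟩ := h1
    obtain ⟨b1, b2⟩ := okc_bd a2
    have b3 : ∀ x ∈ e, |x| ≤ 4096 := fun x hx => (b2 x hx).trans (by norm_num)
    obtain ⟨c1, c2, c3⟩ := hA (-1) e [1]
    have d1 : (axpy (-1) e [1]).length ≤ 16 := c2.trans (max_le b1 (by simp))
    have d2 : ∀ x ∈ axpy (-1) e [1], |x| ≤ 4001 := by
      have := c3 4000 1 (by norm_num) (by norm_num) b2 (by simp)
      intro x hx
      exact (this x hx).trans (by norm_num)
    have d3 : ps (Nat.mul (nat_lit 4294967296) (pkN e)) (pkQ Q) =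
        pkQ ((true, axpy (-1) e [1]) :: Q) := by
      refine ps_congr ?_ (pkQ Q)
      have e1 := pkN_cg e fun x hx => (b2 x hx).trans (by norm_num)
      have e2 := pkN_cg (axpy (-1) e [1]) fun x hx => (d2 x hx).trans (by norm_num)
      rw [c1] at e2
      have e3 := (ng_cg (pkN (axpy (-1) e [1]))).trans e2.neg
      show ((4294967296 * pkN e : ℕ) : ℤ) ≡
        ((4294967296 * (ng (pkN (axpy (-1) e [1])) + 1) : ℕ) : ℤ) [ZMOD ZZ]
      push_cast
      refine ((e1.mul_left 4294967296).trans ?_).trans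
        ((e3.add_right 1).mul_left 4294967296).symm
      simp
    rw [d3] at a4
    show (isI K e && chk K (toT L) ((true, e) :: Q) &&
      chk K (toT R) ((true, axpy (-1) e [1]) :: Q)) = true
    rw [a1, ihL _ a3 (gq_cons hq b1 b3),
      ihR _ a4 (gq_cons hq d1 fun x hx => (d2 x hx).trans (by norm_num))]
    rfl
  | Q e j L R ihL ihR =>
    have h1 : an (okc e) (an (juN (pkK K) (pkQ Q) e j)
      (an (chN (pkK K) L (pkQ ((false, e) :: Q)))
        (chN (pkK K) R (ps (Nat.succ (Nat.mul (nat_lit 4294967296) (pkN e))) (pkQ Q))))) =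
        true := hc
    rw [an_iff, an_iff, an_iff] at h1
    obtain ⟨a2, a1, a3, a4⟩ := h1
    obtain ⟨b1, b2⟩ := okc_bd a2
    have b3 : ∀ x ∈ e, |x| ≤ 4096 := fun x hx => (b2 x hx).trans (by norm_num)
    obtain ⟨c1, c2, c3⟩ := hA (-1) e []
    have d1 : (axpy (-1) e []).length ≤ 16 := c2.trans (max_le b1 (by simp))
    have d2 : ∀ x ∈ axpy (-1) e [], |x| ≤ 4000 := by
      have := c3 4000 0 (by norm_num) (by norm_num) b2 (by simp)
      intro x hx
      exact (this x hx).trans (by norm_num)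
    have d3 : ps (Nat.succ (Nat.mul (nat_lit 4294967296) (pkN e))) (pkQ Q) =
        pkQ ((false, axpy (-1) e []) :: Q) := by
      refine ps_congr ?_ (pkQ Q)
      have e1 := pkN_cg e fun x hx => (b2 x hx).trans (by norm_num)
      have e2 := pkN_cg (axpy (-1) e []) fun x hx => (d2 x hx).trans (by norm_num)
      rw [c1] at e2
      have e3 := (ng_cg (pkN (axpy (-1) e []))).trans e2.neg
      show ((4294967296 * pkN e + 1 : ℕ) : ℤ) ≡
        ((4294967296 * (ng (pkN (axpy (-1) e []))) + 1 : ℕ) : ℤ) [ZMOD ZZ]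
      push_cast
      refine (((e1.mul_left 4294967296).add_right 1).trans ?_).trans
        ((e3.mul_left 4294967296).add_right 1).symm
      simp
    rw [d3] at a4
    show (juc K Q e (toJu j) && chk K (toT L) ((false, e) :: Q) &&
      chk K (toT R) ((false, axpy (-1) e []) :: Q)) = true
    rw [hU K Q e j hg hq a2 a1, ihL _ a3 (gq_cons hq b1 b3),
      ihR _ a4 (gq_cons hq d1 fun x hx => (d2 x hx).trans (by norm_num))]
    rfl
  | C c =>
    exact cert_nil Q (toC c) (hE Q c 0 [] hq (Rep.nil _) hc)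
  | N v m c1 c2 z =>
    have h1 : an (okd v) (an (nzN (pkK K) (pkQ Q) v z)
      (an (ctN (pkQ Q) c1 (mn m * (pkK K).P + (fRN (pkK K) v + 1)))
      (ctN (pkQ Q) c2 (mr m * (pkK K).P + (ng (fRN (pkK K) v) + 1))))) = true := hc
    rw [an_iff, an_iff, an_iff] at h1
    obtain ⟨a1, a2, a3, a4⟩ := h1
    obtain ⟨b1, b2⟩ := okd_bd a1
    have b3 : ∀ x ∈ v, |x| ≤ 24 := fun x hx => (b2 x hx).trans (by norm_num)
    have n1 := hI.1 K Q v z hg hq (b1.trans (by norm_num)) b3 a2
    have r0 := hg.R v b3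
    have r1 : Rep (576 + 1) (axpy 1 (fR K v) [1]) (fRN (pkK K) v + 1) :=
      rep_add hA (by norm_num) (by norm_num) r0 (Rep.one le_rfl)
    have r2 : Rep (576 + 1) (axpy (-1) (fR K v) [1]) (ng (fRN (pkK K) v) + 1) :=
      rep_sub hA (by norm_num) (by norm_num) r0 (Rep.one le_rfl)
    have hm := mz_bd m
    have s1 := rep_axpy hA (by norm_num) (by norm_num) hg.P r1 (mn_cg m)
    have s2 := rep_axpy hA (by norm_num) (by norm_num) hg.P r2 (mr_cg m)
    have t1 := hE Q c1 _ _ hq (s1.mono (by rw [abs_neg]; linarith)) a3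
    have t2 := hE Q c2 _ _ hq (s2.mono (by linarith)) a4
    show (nzc K Q v (toNZ z) && cert Q (toC c1) (axpy (-(mz m)) K.P (axpy 1 (fR K v) [1])) &&
      cert Q (toC c2) (axpy (mz m) K.P (axpy (-1) (fR K v) [1]))) = true
    rw [n1, t1, t2]
    rfl
  | K r => exact hQ K Q r hg hq hc
  | R r => exact hO K Q r hg hq hc
  | S r => exact hP K Q r hg hq hc

end Pool.Agent.Helper62.PC
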